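import Pool.Agent.TreewidthMinor.Finite
import Pool.Agent.TreewidthMinor.Low
import Pool.Agent.TreewidthMinor.Drawing

set_option autoImplicit false

/-!
# Subdividing an edge need not raise the tree-width threshold of a planar graph

For infinitely many `t`, the planar graph `H = t C₃` (disjoint triangles) satisfies
`f(H') = f(H)` for every graph `H'` obtained from `H` by subdividing one edge once.
-/

namespace Pool.Agent.Results.MP_31fefb_co.DisjointTriangles

open Pool.Agent.TreewidthMinor

/-- There are arbitrarily large `t` such that the graph `H = t C₃`, which has a plane drawing with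
straight edges, and every graph `H'` obtained from `H` by subdividing one edge once have the same
threshold: `f(H) = k = f(H')` for some natural number `k`. -/
theorem result : ∀ N : ℕ, ∃ t : ℕ, N < t ∧ HasStraightDrawing (triangles t) ∧
    ∃ k : ℕ, IsThreshold (triangles t) k ∧
      ∀ u v : Fin t × Fin 3, (triangles t).Adj u v →
        IsThreshold (subdivide (triangles t) u v) k := by
  intro N
  obtain ⟨p, hp1, hp⟩ := Nat.exists_infinite_primes (8 * N + 1000)
  have hpF : Fact p.Prime := ⟨hp⟩
  have hcard := card_PV p (by omega)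
  refine ⟨Fintype.card (PV p) / 4 + 1, ?_, hasStraightDrawing_triangles _, ?_⟩
  · have h1 : p * 1 ≤ p * (p - 1) := Nat.mul_le_mul_left p (by omega)
    omega
  have hlow := three_mul_le p (by omega)
  generalize Fintype.card (PV p) / 4 + 1 = t at hlow
  -- the threshold of `t C₃`
  obtain ⟨K, hK⟩ := exists_forces t
  obtain ⟨k, hk1, hk2⟩ : ∃ k, Forces (triangles t) k ∧ ∀ j, Forces (triangles t) j → k ≤ j := by
    classical
    exact ⟨Nat.find ⟨K, hK⟩, Nat.find_spec ⟨K, hK⟩, fun j hj => Nat.find_min' ⟨K, hK⟩ hj⟩
  refine ⟨k, ⟨hk1, fun j hj => hk2 j hj⟩, ?_⟩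
  rintro ⟨i, a⟩ ⟨j, b⟩ ⟨hij, hab⟩
  simp only at hij hab
  subst hij
  refine ⟨forces_subdivide i a b hab k (hlow k hk1) hk1, ?_⟩
  intro j hj
  apply hk2
  intro V _ _ G hG
  exact (isMinor_subdivide _ _ _).trans (hj V G hG)

end Pool.Agent.Results.MP_31fefb_co.DisjointTriangles
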